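import Pool.Agent.KS6_95.PC.Win
import Pool.Agent.KS6_95.PC.Lin

set_option autoImplicit false

/-!
# Perfect codes of the generalized Fibonacci cubes: which `s` are possible

`Γ_n(1^s)` (`n ≥ 3`, `s ≥ 2`) has a perfect code only if `n = 2^p - 1`, and its perfect codes are the
perfect codes of `Q_n` without `1^s`. Here the possible `s` are located: `s ≥ (6 - √2)/8 · 2^p` is
necessary if `p ≥ 3` and `s ≥ 11/16 · 2^p - 1` is sufficient if `p ≥ 4`, which is the exact answer for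
`n = 7` and `n = 15`.
-/

namespace Pool.Agent.Results.MP_87e4a0_co.Threshold

open Finset Pool.Agent.KS6_95.PC Pool.Agent.Results.MP_87e4a0_co.PerfectCodes

lemma small1 : IsPerfectCode (cube 1) {x : Str 1 | x = ![false]} := by
  rw [cube_perfect_iff]
  intro v
  refine ⟨![false], ⟨rfl, ?_⟩, fun y hy => hy.1⟩
  have : v = ![false] ∨ v = ![true] := by
    revert v; decide
  rcases this with rfl | rfl
  · exact Or.inl rfl
  · refine Or.inr ⟨0, ?_⟩
    funext j
    fin_cases j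
    rfl

lemma small3 : IsPerfectCode (cube 3)
    {x : Str 3 | x = ![false, false, true] ∨ x = ![true, true, false]} := by
  rw [cube_perfect_iff]
  have key : ∀ v : Fin 3 → Bool,
      ∃ c : Fin 3 → Bool, ((c = ![false, false, true] ∨ c = ![true, true, false]) ∧
        (c = v ∨ ∃ i, c = Function.update v i (!v i))) ∧
        ∀ d : Fin 3 → Bool, ((d = ![false, false, true] ∨ d = ![true, true, false]) ∧
        (d = v ∨ ∃ i, d = Function.update v i (!v i))) → d = c := by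
    decide
  exact key

lemma gaps1 : EvenGaps 0 {x : Str 1 | x = ![false]} := by
  rintro w rfl i i' h1 h2
  have : ∀ i, pre i (![false] : Str 1) = 0 := by
    intro i
    unfold pre
    apply Finset.sum_eq_zero
    intro j _
    have : (![false] : Str 1) j = false := by fin_cases j; rfl
    rw [this]
    split_ifs <;> rfl
  rw [this, this]

lemma gaps3 : EvenGaps 1 {x : Str 3 | x = ![false, false, true] ∨ x = ![true, true, false]} := by
  rintro w hw i i' ⟨h1, z1⟩ ⟨h2, z2⟩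
  have hi : i ≤ 2 := by omega
  have hi' : i' ≤ 2 := by omega
  have e1 := z1 ⟨i, by omega⟩ le_rfl (by simp)
  have e2 := z2 ⟨i', by omega⟩ le_rfl (by simp)
  rcases hw with rfl | rfl <;> interval_cases i <;> interval_cases i' <;>
    first
    | rfl
    | exact absurd (show true = false from e1) (by decide)
    | exact absurd (show true = false from e2) (by decide)

/-- `Γ_n(1^s)` has a perfect code. -/
def HasCode (n s : ℕ) : Prop := ∃ C : Set {x : Str n // ¬ HasRun s x}, IsPerfectCode (fibCube n s) C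

lemma hasCode_three {s : ℕ} (hs : 2 ≤ s) : HasCode 3 s := by
  have h1 := vas_perfect (h := 1) small1 (lam 0)
  have h2 := vas_no_run (h := 1) (by decide) gaps1
  exact exists_fib _ h1 fun c hc hr => h2 c hc (HasRun.of_le (by omega) hr)

lemma hasCode_seven {s : ℕ} (hs : 5 ≤ s) : HasCode 7 s := by
  have h1 := vas_perfect (h := 3) small3 (lam 1)
  have h2 := vas_no_run (h := 3) (by decide) gaps3
  exact exists_fib _ h1 fun c hc hr => h2 c hc (HasRun.of_le (by omega) hr)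

lemma hasCode_large {p s : ℕ} (hp : 4 ≤ p) (hs : 11 * 2 ^ (p - 4) - 1 ≤ s) :
    HasCode (2 ^ p - 1) s := by
  obtain ⟨D, h1, h2⟩ := exists_long (p - 3) (by omega)
  obtain ⟨t, rfl⟩ : ∃ t, p = t + 4 := ⟨p - 4, by omega⟩
  have e1 : 8 * 2 ^ (t + 4 - 3) - 1 = 2 ^ (t + 4) - 1 := by
    rw [show t + 4 - 3 = t + 1 by omega]
    congr 1
    ring
  have e2 : t + 4 - 3 - 1 = t + 4 - 4 := by omega
  rw [e2] at h2
  have h3 : HasCode (8 * 2 ^ (t + 4 - 3) - 1) s :=
    exists_fib _ h1 fun c hc hr => h2 c hc (HasRun.of_le hs hr)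
  rw [e1] at h3
  exact h3

lemma necessary {n s : ℕ} (hn : 3 ≤ n) (hs : 2 ≤ s) (h : HasCode n s) :
    ∃ p : ℕ, n = 2 ^ p - 1 ∧ (3 ≤ p → (6 - Real.sqrt 2) / 8 * (2 : ℝ) ^ p ≤ s) := by
  obtain ⟨C, hC⟩ := h
  obtain ⟨⟨p, hp⟩, h2, h3⟩ := PerfectCodes.result n s hn hs C hC
  refine ⟨p, hp, fun hp3 => ?_⟩
  obtain ⟨t, rfl⟩ : ∃ t, p = t + 3 := ⟨p - 3, by omega⟩
  have hpos : 0 < 2 ^ t := by positivity
  have hpow : 2 ^ (t + 3) = 8 * 2 ^ t := by ring
  have hr : ∀ c ∈ (Subtype.val '' C : Set (Str n)), ¬ HasRun s c := by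
    rintro _ ⟨c, _, rfl⟩
    exact c.2
  have key := lower (u := 2 ^ t) h2 hr (by omega) h3
  have e : (n : ℝ) + 1 = 2 ^ (t + 3) := by
    have : n + 1 = 2 ^ (t + 3) := by omega
    exact_mod_cast this
  rw [e] at key
  exact key

lemma sqrt_two_lt : Real.sqrt 2 < 1.5 := by
  rw [Real.sqrt_lt' (by norm_num)]
  norm_num

/-- **Theorem.** Let `n ≥ 3` and `s ≥ 2`.

* A set `C` of vertices of `Γ_n(1^s)` is a perfect code of `Γ_n(1^s)` if and only if it is a perfect
  code of the hypercube `Q_n`.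
* If `Γ_n(1^s)` has a perfect code, then `n = 2^p - 1` for some `p`, and `s ≥ (6 - √2)/8 · 2^p` in case
  `p ≥ 3`.
* If `p ≥ 4` and `s ≥ 11 · 2^(p-4) - 1`, then `Γ_n(1^s)`, `n = 2^p - 1`, has a perfect code.
* `Γ_3(1^s)` has a perfect code; `Γ_7(1^s)` has one iff `s ≥ 5`; `Γ_15(1^s)` has one iff
  `s ≥ 10`. -/
theorem result :
    (∀ n s : ℕ, 3 ≤ n → 2 ≤ s → ∀ C : Set {x : Str n // ¬ HasRun s x},
      (IsPerfectCode (fibCube n s) C ↔ IsPerfectCode (cube n) (Subtype.val '' C))) ∧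
    (∀ n s : ℕ, 3 ≤ n → 2 ≤ s →
      (∃ C : Set {x : Str n // ¬ HasRun s x}, IsPerfectCode (fibCube n s) C) →
      ∃ p : ℕ, n = 2 ^ p - 1 ∧ (3 ≤ p → (6 - Real.sqrt 2) / 8 * (2 : ℝ) ^ p ≤ s)) ∧
    (∀ p s : ℕ, 4 ≤ p → 11 * 2 ^ (p - 4) - 1 ≤ s →
      ∃ C : Set {x : Str (2 ^ p - 1) // ¬ HasRun s x},
        IsPerfectCode (fibCube (2 ^ p - 1) s) C) ∧
    (∀ s : ℕ, 2 ≤ s →
      (∃ C : Set {x : Str 3 // ¬ HasRun s x}, IsPerfectCode (fibCube 3 s) C) ∧
      ((∃ C : Set {x : Str 7 // ¬ HasRun s x}, IsPerfectCode (fibCube 7 s) C) ↔ 5 ≤ s) ∧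
      ((∃ C : Set {x : Str 15 // ¬ HasRun s x}, IsPerfectCode (fibCube 15 s) C) ↔ 10 ≤ s)) := by
  refine ⟨fun n s hn hs C => ⟨fun h => (PerfectCodes.result n s hn hs C h).2.1,
    fun h => fib_of_cube C h⟩, fun n s hn hs h => necessary hn hs h,
    fun p s hp hs => hasCode_large hp hs, fun s hs => ⟨hasCode_three hs, ⟨fun h => ?_,
    fun h => hasCode_seven h⟩, ⟨fun h => ?_, fun h => ?_⟩⟩⟩
  · obtain ⟨p, hp, h2⟩ := necessary (by norm_num) hs h
    have hp3 : p = 3 := by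
      have h8 : 2 ^ p = 2 ^ 3 := by omega
      exact Nat.pow_right_injective (le_refl 2) h8
    subst hp3
    have h3 := h2 le_rfl
    have h4 := sqrt_two_lt
    have h5 : (4 : ℝ) < s := by
      have h6 : (6 - Real.sqrt 2) / 8 * (2 : ℝ) ^ 3 = 6 - Real.sqrt 2 := by ring
      rw [h6] at h3
      norm_num at h4
      linarith
    have h6 : 4 < s := by exact_mod_cast h5
    omega
  · obtain ⟨p, hp, h2⟩ := necessary (by norm_num) hs h
    have hp3 : p = 4 := by
      have h8 : 2 ^ p = 2 ^ 4 := by omega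
      exact Nat.pow_right_injective (le_refl 2) h8
    subst hp3
    have h3 := h2 (by norm_num)
    have h4 := sqrt_two_lt
    have h5 : (9 : ℝ) < s := by
      have h6 : (6 - Real.sqrt 2) / 8 * (2 : ℝ) ^ 4 = 2 * (6 - Real.sqrt 2) := by ring
      rw [h6] at h3
      norm_num at h4
      linarith
    have h6 : 9 < s := by exact_mod_cast h5
    omega
  · have := hasCode_large (p := 4) (s := s) le_rfl (by norm_num; omega)
    exact this

end Pool.Agent.Results.MP_87e4a0_co.Threshold
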